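import Pool.Agent.K7.H45.GFD.Digraph
import Pool.Agent.Helper230.GFGen

/-!
# A dense pair of grammatical families of finite grammar forms

Letters are natural numbers; a language is a set of words over the natural numbers. We show that
the pair given by the finite grammar forms `S → ab | ba` and `S → aa` is dense.

A finite form all of whose words have length two is determined, up to equality of families
modulo the empty word, by the homomorphism class of a finite digraph. Between two digraphs
`D₁ < D₂` above the undirected edge lies the disjoint union of `D₁` and `D₂ × H`, where `H` is a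
finite undirected graph of large chromatic number whose small subgraphs are bipartite (an
iterated shift graph).
-/

namespace Pool.Agent.Results.MP_71ec98_lc.FinitePairDense

open Pool.Agent.Helper230 Pool.Agent.K7.H45.GFD

/-- A context-free grammar: `V` is the total alphabet, `T` the set of terminals, `P` the finite
set of productions (a pair `(A, β)` is the production `A → β`), `S` the start symbol. -/
structure Grammar where
  V : Finset ℕ
  T : Finset ℕ
  P : Finset (ℕ × List ℕ)
  S : ℕ
  T_subset : T ⊆ V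
  S_mem : S ∈ V \ T
  P_wf : ∀ p ∈ P, p.1 ∈ V \ T ∧ ∀ x ∈ p.2, x ∈ V

/-- One derivation step. -/
def Grammar.Step (G : Grammar) (u v : List ℕ) : Prop :=
  ∃ (l r : List ℕ) (A : ℕ) (β : List ℕ), (A, β) ∈ G.P ∧ u = l ++ A :: r ∧ v = l ++ β ++ r

/-- The language `L(G)`: all words of terminals which can be derived from the start symbol. -/
def Grammar.language (G : Grammar) : Set (List ℕ) :=
  {w | (∀ x ∈ w, x ∈ G.T) ∧ Relation.ReflTransGen G.Step [G.S] w}

/-- `μ` is a dfl-substitution on the alphabet `V`: every letter of `V` is sent to a finite set of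
letters, different letters to disjoint sets. -/
def IsDflSubstitution (V : Finset ℕ) (μ : ℕ → Finset ℕ) : Prop :=
  ∀ a ∈ V, ∀ b ∈ V, a ≠ b → Disjoint (μ a) (μ b)

/-- `G'` is an interpretation of the grammar form `G` modulo `μ`. -/
structure IsInterpretation (G G' : Grammar) (μ : ℕ → Finset ℕ) : Prop where
  dfl : IsDflSubstitution G.V μ
  nonterminals : ∀ A ∈ G.V \ G.T, μ A ⊆ G'.V \ G'.T
  terminals : ∀ a ∈ G.T, μ a ⊆ G'.T
  productions : ∀ p ∈ G'.P, ∃ q ∈ G.P,
    p.1 ∈ μ q.1 ∧ List.Forall₂ (fun y x => y ∈ μ x) p.2 q.2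
  start : G'.S ∈ μ G.S

/-- The grammatical family of the form `G`: the languages of all its interpretations. -/
def family (G : Grammar) : Set (Set (List ℕ)) :=
  {L | ∃ (G' : Grammar) (μ : ℕ → Finset ℕ), IsInterpretation G G' μ ∧ L = G'.language}

/-- Inclusion of families of languages, languages being compared modulo the empty word. -/
def FamLE (X Y : Set (Set (List ℕ))) : Prop :=
  ∀ L ∈ X, ∃ L' ∈ Y, L \ {[]} = L' \ {[]}

/-- Proper inclusion of families of languages modulo the empty word. -/
def FamLT (X Y : Set (Set (List ℕ))) : Prop := FamLE X Y ∧ ¬ FamLE Y X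

/-- The pair `(X, Y)` of families is dense: between any two grammatical families
`X ⊆ family G₁ ⊊ family G₂ ⊆ Y` there is a further one. -/
def IsDensePair (X Y : Set (Set (List ℕ))) : Prop :=
  ∀ G₁ G₂ : Grammar, FamLE X (family G₁) → FamLT (family G₁) (family G₂) →
    FamLE (family G₂) Y →
    ∃ G₃ : Grammar, FamLT (family G₁) (family G₃) ∧ FamLT (family G₃) (family G₂)

/-- The finite grammar form with the productions `S → ab`, `S → ba`. -/
def formOne : Grammar where
  V := {0, 1, 2}
  T := {1, 2}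
  P := {(0, [1, 2]), (0, [2, 1])}
  S := 0
  T_subset := by decide
  S_mem := by decide
  P_wf := by decide

/-- The finite grammar form with the production `S → aa`. -/
def formTwo : Grammar where
  V := {0, 1}
  T := {1}
  P := {(0, [1, 1])}
  S := 0
  T_subset := by decide
  S_mem := by decide
  P_wf := by decide

theorem Grammar.not_mem {G : Grammar} {x : ℕ} (h : x ∈ G.V \ G.T) : x ∉ G.T :=
  (Finset.mem_sdiff.1 h).2

def Grammar.dat (G : Grammar) : GDat where
  N := (G.V \ G.T : Finset ℕ)
  T := G.T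
  S := G.S
  P := G.P
  disj := fun _ h h' => G.not_mem h h'
  hS := G.S_mem
  wf := fun p hp => ⟨(G.P_wf p hp).1, fun x hx => by
    by_cases h : x ∈ G.T
    · exact Or.inr h
    · exact Or.inl (Finset.mem_coe.2 (Finset.mem_sdiff.2 ⟨(G.P_wf p hp).2 x hx, h⟩))⟩

theorem all_ters {Q : Type} {T' : Finset ℕ} (e : Q → ℕ) (he : ∀ q, e q ∉ T')
    (U : List (Q ⊕ ℕ)) (hw : ∀ x ∈ U.map (Sum.elim e id), x ∈ T') :
    U = (U.map (Sum.elim e id)).map Sum.inr := by
  induction U with
  | nil => rfl
  | cons x U ih =>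
    have ih' := ih (fun y hy => hw y (by rw [List.map_cons]; exact List.mem_cons_of_mem _ hy))
    cases x with
    | inl q => exact absurd (hw (e q) (by simp)) (he q)
    | inr x =>
      rw [List.map_cons, List.map_cons, ← ih']
      rfl

theorem lang_eq (G' : Grammar) {Q : Type} (e : Q → ℕ) (R : Set (Q × List (Q ⊕ ℕ))) (s : Q)
    (hs : G'.S = e s) (he : ∀ q, e q ∈ G'.V \ G'.T)
    (h1 : ∀ q β, (q, β) ∈ R → (e q, β.map (Sum.elim e id)) ∈ G'.P ∧
      ∀ x, Sum.inr x ∈ β → x ∈ G'.T)
    (h2 : ∀ q γ, (e q, γ) ∈ G'.P → ∃ β, (q, β) ∈ R ∧ γ = β.map (Sum.elim e id)) :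
    G'.language = {w | Der (ExR R) [Sum.inl s] w} := by
  ext w
  constructor
  · rintro ⟨hw, hd⟩
    have key : ∀ u, Relation.ReflTransGen G'.Step u w → ∀ U : List (Q ⊕ ℕ),
        u = U.map (Sum.elim e id) → (∀ x, Sum.inr x ∈ U → x ∈ G'.T) → Der (ExR R) U w := by
      intro u hu
      induction hu using Relation.ReflTransGen.head_induction_on with
      | refl =>
        intro U hU _
        have : U = w.map Sum.inr := by
          subst hU
          exact all_ters (T' := G'.T) e (fun q => G'.not_mem (he q)) U hw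
        rw [this]
        exact Der.of_ters w
      | head hstep _ ih =>
        intro U hU hT
        obtain ⟨l, r, A, β, hA, rfl, rfl⟩ := hstep
        obtain ⟨U1, U2, rfl, h3, h4⟩ := List.map_eq_append_iff.1 hU.symm
        obtain ⟨x, U3, rfl, h5, h6⟩ := List.map_eq_cons_iff.1 h4
        cases x with
        | inr x =>
          exfalso
          have h7 : x = A := h5
          subst h7
          exact G'.not_mem (G'.P_wf _ hA).1 (hT x (by simp))
        | inl q =>
          have h7 : e q = A := h5
          subst h7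
          obtain ⟨β0, hβ0, rfl⟩ := h2 q β hA
          have h8 := ih (U1 ++ β0 ++ U3) (by simp [h3, h6]) (by
            intro x hx
            rw [List.mem_append, List.mem_append] at hx
            rcases hx with (hx | hx) | hx
            · exact hT x (List.mem_append_left _ hx)
            · exact (h1 _ _ hβ0).2 x hx
            · exact hT x (List.mem_append_right _ (List.mem_cons_of_mem _ hx)))
          exact Der.of_step ⟨U1, U3, q, β0, rfl, hβ0, rfl⟩ h8
    exact key _ hd [Sum.inl s] (by simp [hs]) (by simp)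
  · rintro hd
    have hd' := (rtg_iff_Der _ _).2 hd
    obtain ⟨n, hn⟩ := hd
    refine ⟨?_, ?_⟩
    · exact DerN_letters (D := G'.T) (fun r hr x hx => (h1 r.1 r.2 hr).2 x hx) hn (by simp)
    · have h3 : ∀ u v, Step (ExR R) u v →
          G'.Step (u.map (Sum.elim e id)) (v.map (Sum.elim e id)) := by
        rintro _ _ ⟨pre, suf, q, x, rfl, hx, rfl⟩
        exact ⟨pre.map (Sum.elim e id), suf.map (Sum.elim e id), e q, x.map (Sum.elim e id),
          (h1 _ _ hx).1, by simp, by simp⟩
      have h4 := Relation.ReflTransGen.lift (r := Step (ExR R)) (p := G'.Step)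
        (fun u => u.map (Sum.elim e id)) h3 _ _ hd'
      have h5 : (w.map (Sum.inr : ℕ → Q ⊕ ℕ)).map (Sum.elim e id) = w := by
        rw [List.map_map]
        conv_rhs => rw [← List.map_id w]
        rfl
      simp only [Function.onFun] at h4
      rw [h5] at h4
      simpa [hs] using h4

theorem fam_gen {G : Grammar} {L : Set (List ℕ)} (hL : L ∈ family G) :
    ∃ τ : ℕ → ℕ, Gen G.dat τ L := by
  classical
  obtain ⟨G', σ, hI, rfl⟩ := hL
  let Q : Type := {x // x ∈ G'.V \ G'.T ∧ ∃ A ∈ G.V \ G.T, x ∈ σ A}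
  have hQfin : Finite Q :=
    Finite.of_injective (fun q : Q => (⟨q.1, q.2.1⟩ : {x // x ∈ G'.V \ G'.T})) (by
      intro a b h
      apply Subtype.ext
      simpa using h)
  have hN : ∀ q : Q, ∃ A ∈ G.V \ G.T, q.1 ∈ σ A := fun q => q.2.2
  choose ν hν1 hν2 using hN
  let D : Finset ℕ := G'.T.filter (fun x => ∃ t ∈ G.T, x ∈ σ t)
  have hT : ∀ x : ℕ, ∃ t, x ∈ D → t ∈ G.T ∧ x ∈ σ t := by
    intro x
    by_cases hx : x ∈ D
    · obtain ⟨t, ht, hxt⟩ := (Finset.mem_filter.1 hx).2
      exact ⟨t, fun _ => ⟨ht, hxt⟩⟩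
    · exact ⟨0, fun h => absurd h hx⟩
  choose τ hτ using hT
  have hNV : ∀ x ∈ G.V \ G.T, x ∈ G.V := fun x hx => (Finset.mem_sdiff.1 hx).1
  have huniq : ∀ z x y, x ∈ G.V → y ∈ G.V → z ∈ σ x → z ∈ σ y → x = y := by
    intro z x y hx hy h1 h2
    by_contra hne
    exact (Finset.disjoint_left.1 (hI.dfl x hx y hy hne)) h1 h2
  let e : Q → ℕ := Subtype.val
  let R : Set (Q × List (Q ⊕ ℕ)) :=
    {r | (e r.1, r.2.map (Sum.elim e id)) ∈ G'.P ∧ ∀ x, Sum.inr x ∈ r.2 → x ∈ D}
  have hsV : G'.S ∈ G'.V \ G'.T ∧ ∃ A ∈ G.V \ G.T, G'.S ∈ σ A := ⟨G'.S_mem, G.S, G.S_mem, hI.start⟩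
  refine ⟨τ, Q, hQfin, ν, ⟨G'.S, hsV⟩, R, D, ?_, hν1, ?_, ?_, ?_,
    ?_⟩
  · exact huniq G'.S _ _ (hNV _ (hν1 _)) (hNV _ G.S_mem)
      (hν2 ⟨G'.S, hsV⟩) hI.start
  · intro x hx
    exact (hτ x hx).1
  · rintro ⟨q, β⟩ ⟨hr, hx⟩
    obtain ⟨⟨A, γ⟩, hq, hA, hF⟩ := hI.productions _ hr
    dsimp only at hA hF hx ⊢
    have hwf := G.P_wf _ hq
    have h1 : ν q = A := huniq q.1 _ _ (hNV _ (hν1 q))
      (hNV _ hwf.1) (hν2 q) hA
    have h2 : β.map (Sum.elim ν τ) = γ := by
      have hγ : ∀ x ∈ γ, x ∈ G.V := fun x hx => hwf.2 x hx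
      clear hr hq hwf
      induction β generalizing γ with
      | nil =>
        cases γ with
        | nil => rfl
        | cons y γ => simp at hF
      | cons x β ih =>
        cases γ with
        | nil => simp at hF
        | cons y γ =>
          rw [List.map_cons, List.forall₂_cons] at hF
          rw [List.map_cons, ih (fun y hy => hx y (List.mem_cons_of_mem _ hy)) γ hF.2
            (fun y hy => hγ y (List.mem_cons_of_mem _ hy))]
          congr 1
          cases x with
          | inl q' =>
            exact huniq q'.1 _ _ (hNV _ (hν1 q')) (hγ y List.mem_cons_self)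
              (hν2 q') hF.1
          | inr x =>
            have hxT := hx x List.mem_cons_self
            exact huniq x _ _ (G.T_subset (hτ x hxT).1)
              (hγ y List.mem_cons_self) (hτ x hxT).2 hF.1
    rw [h1, h2]
    exact hq
  · rintro ⟨q, β⟩ ⟨_, hx⟩ x h
    exact hx x h
  · refine lang_eq G' e R _ rfl (fun q => q.2.1)
      (fun q β h => ⟨h.1, fun x hx => (Finset.mem_filter.1 (h.2 x hx)).1⟩) ?_
    intro q γ hγ
    obtain ⟨⟨A, γ'⟩, hq', -, hF⟩ := hI.productions _ hγ
    dsimp only at hF
    have hwf := (G.P_wf _ hq').2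
    dsimp only at hwf
    have hz : ∀ z ∈ γ, ∃ y ∈ G.V, z ∈ σ y := by
      clear hγ hq'
      induction hF with
      | nil => intro z hz; simp at hz
      | @cons a b l1 l2 hab _ ih =>
        intro z hz
        rcases List.mem_cons.1 hz with rfl | hz
        · exact ⟨b, hwf b List.mem_cons_self, hab⟩
        · exact ih (fun x hx => hwf x (List.mem_cons_of_mem _ hx)) z hz
    let lf : ℕ → Q ⊕ ℕ := fun x =>
      if h : x ∈ G'.V \ G'.T ∧ ∃ A ∈ G.V \ G.T, x ∈ σ A then Sum.inl ⟨x, h⟩ else Sum.inr x
    have h1 : (γ.map lf).map (Sum.elim e id) = γ := by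
      rw [List.map_map]
      conv_rhs => rw [← List.map_id γ]
      apply List.map_congr_left
      intro x _
      simp only [Function.comp_apply, lf]
      split_ifs <;> rfl
    refine ⟨γ.map lf, ⟨?_, ?_⟩, h1.symm⟩
    · dsimp only
      rw [h1]; exact hγ
    · intro x hx
      obtain ⟨y, hy, hxy⟩ := List.mem_map.1 hx
      simp only [lf] at hxy
      split_ifs at hxy with h
      have hyx : y = x := by simpa using hxy
      subst hyx
      obtain ⟨b, hb, hyb⟩ := hz y hy
      by_cases hbT : b ∈ G.T
      · exact Finset.mem_filter.2 ⟨hI.terminals b hbT hyb, b, hbT, hyb⟩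
      · have hbN : b ∈ G.V \ G.T := Finset.mem_sdiff.2 ⟨hb, hbT⟩
        exact absurd ⟨hI.nonterminals b hbN hyb, b, hbN, hyb⟩ h

theorem finite_words {α : Type} (E : Set α) (hE : E.Finite) (r : ℕ) :
    {w : List α | (∀ x ∈ w, x ∈ E) ∧ w.length < r}.Finite := by
  have : Finite E := hE
  have h : {w : List α | (∀ x ∈ w, x ∈ E) ∧ w.length < r} ⊆
      (fun w : List E => w.map Subtype.val) '' {w : List E | w.length < r} := by
    rintro w ⟨hw, hr⟩
    refine ⟨w.attach.map (fun x => ⟨x.1, hw x.1 x.2⟩), ?_, ?_⟩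
    · simpa using hr
    · simp
  exact Set.Finite.subset (Set.Finite.image _ (List.finite_length_lt E r)) h

theorem gen_fam {G : Grammar} {τ : ℕ → ℕ} {L : Set (List ℕ)} (hL : Gen G.dat τ L) :
    L ∈ family G := by
  classical
  obtain ⟨Q, hQ, ν, s, R, D, hs, hN, hD, hR, hRD, rfl⟩ := hL
  have : Fintype Q := Fintype.ofFinite Q
  obtain ⟨idx, hidx⟩ := exists_injective_nat Q
  let M : ℕ := D.sup id + 1
  have hM : ∀ x ∈ D, x < M := fun x hx => Nat.lt_succ_of_le (Finset.le_sup (f := id) hx)
  let e : Q → ℕ := fun q => M + idx q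
  have he : Function.Injective e := by
    intro q q' h
    apply hidx
    simp only [e] at h
    omega
  let σ : ℕ → Finset ℕ := fun y =>
    if y ∈ G.T then D.filter (fun x => τ x = y)
    else (Finset.univ.filter (fun q => ν q = y)).image e
  have hσN : ∀ y, y ∉ G.T → ∀ z, z ∈ σ y ↔ (∃ q, ν q = y ∧ e q = z) := by
    intro y hy z
    simp only [σ, if_neg hy, Finset.mem_image, Finset.mem_filter,
      Finset.mem_univ, true_and]
  have hσT : ∀ y ∈ G.T, ∀ z, z ∈ σ y ↔ (z ∈ D ∧ τ z = y) := by
    intro y hy z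
    simp only [σ, if_pos hy, Finset.mem_filter]
  have hNT : ∀ q, ν q ∉ G.T := fun q => G.not_mem (hN q)
  have hdisj : ∀ x ∈ G.V, ∀ y ∈ G.V, x ≠ y → Disjoint (σ x) (σ y) := by
    intro x _ y _ hne
    rw [Finset.disjoint_left]
    intro z hz1 hz2
    by_cases hx : x ∈ G.T <;> by_cases hy : y ∈ G.T
    · rw [hσT x hx] at hz1
      rw [hσT y hy] at hz2
      exact hne (hz1.2.symm.trans hz2.2)
    · rw [hσT x hx] at hz1
      rw [hσN y hy] at hz2
      obtain ⟨q, -, h⟩ := hz2
      have := hM _ hz1.1
      simp only [e] at h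
      omega
    · rw [hσN x hx] at hz1
      rw [hσT y hy] at hz2
      obtain ⟨q, -, h⟩ := hz1
      have := hM _ hz2.1
      simp only [e] at h
      omega
    · rw [hσN x hx] at hz1
      rw [hσN y hy] at hz2
      obtain ⟨q, rfl, h⟩ := hz1
      obtain ⟨q', rfl, h'⟩ := hz2
      exact hne (by rw [he (h.trans h'.symm)])
  have henc : ∀ β : List (Q ⊕ ℕ), (∀ x, Sum.inr x ∈ β → x ∈ D) → ∀ z ∈ β,
      Sum.elim e id z ∈ σ (Sum.elim ν τ z) := by
    intro β hβ z hz
    cases z with
    | inl q =>
      simp only [Sum.elim_inl]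
      rw [hσN _ (hNT q)]
      exact ⟨q, rfl, rfl⟩
    | inr x =>
      simp only [Sum.elim_inr, id_eq]
      rw [hσT _ (hD x (hβ x hz))]
      exact ⟨hβ x hz, rfl⟩
  -- finiteness of the rules
  have hRfin : R.Finite := by
    obtain ⟨n, hn⟩ : ∃ n, ∀ p ∈ G.P, p.2.length < n := by
      refine ⟨G.P.sup (fun p => p.2.length) + 1, fun p hp => Nat.lt_succ_of_le ?_⟩
      exact Finset.le_sup (f := fun p : ℕ × List ℕ => p.2.length) hp
    have hE : (Set.range (Sum.inl : Q → Q ⊕ ℕ) ∪ Sum.inr '' (D : Set ℕ)).Finite :=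
      (Set.finite_range _).union (Set.Finite.image _ D.finite_toSet)
    refine ((Set.finite_univ (α := Q)).prod (finite_words _ hE n)).subset ?_
    rintro ⟨q, β⟩ hr
    refine ⟨Set.mem_univ _, ?_, ?_⟩
    · intro x hx
      cases x with
      | inl q => exact Or.inl ⟨q, rfl⟩
      | inr x => exact Or.inr ⟨x, hRD _ hr x hx, rfl⟩
    · have := hn _ (hR _ hr)
      simpa using this
  let P' : Finset (ℕ × List ℕ) :=
    hRfin.toFinset.image (fun r => (e r.1, r.2.map (Sum.elim e id)))
  have hP' : ∀ p, p ∈ P' ↔ ∃ q β, (q, β) ∈ R ∧ (e q, β.map (Sum.elim e id)) = p := by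
    intro p
    simp only [P', Finset.mem_image, Set.Finite.mem_toFinset, Prod.exists]
  have heD : ∀ q, e q ∉ D := by
    intro q h
    have := hM _ h
    simp only [e] at this
    omega
  let G' : Grammar :=
    { V := Finset.univ.image e ∪ D
      T := D
      S := e s
      P := P'
      T_subset := Finset.subset_union_right
      S_mem := Finset.mem_sdiff.2 ⟨Finset.mem_union_left _
        (Finset.mem_image_of_mem _ (Finset.mem_univ _)), heD s⟩
      P_wf := by
        intro p hp
        obtain ⟨q, β, hr, rfl⟩ := (hP' p).1 hp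
        refine ⟨?_, ?_⟩
        · exact Finset.mem_sdiff.2 ⟨Finset.mem_union_left _
            (Finset.mem_image_of_mem _ (Finset.mem_univ _)), heD q⟩
        · intro x hx
          obtain ⟨z, hz, rfl⟩ := List.mem_map.1 hx
          cases z with
          | inl q' =>
            exact Finset.mem_union_left _ (Finset.mem_image_of_mem _ (Finset.mem_univ _))
          | inr x' => exact Finset.mem_union_right _ (hRD _ hr _ hz) }
  refine ⟨G', σ, ⟨hdisj, ?_, ?_, ?_, ?_⟩, ?_⟩
  · intro A hA z hz
    rw [hσN A (G.not_mem hA)] at hz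
    obtain ⟨q, -, rfl⟩ := hz
    exact Finset.mem_sdiff.2 ⟨Finset.mem_union_left _
        (Finset.mem_image_of_mem _ (Finset.mem_univ _)), heD q⟩
  · intro a ha z hz
    rw [hσT a ha] at hz
    exact hz.1
  · intro p hp
    obtain ⟨q, β, hr, rfl⟩ := (hP' p).1 hp
    refine ⟨(ν q, β.map (Sum.elim ν τ)), hR _ hr, ?_, ?_⟩
    · change e q ∈ σ (ν q)
      rw [hσN _ (hNT q)]; exact ⟨q, rfl, rfl⟩
    · change List.Forall₂ _ (β.map (Sum.elim e id)) (β.map (Sum.elim ν τ))
      have h1 := henc β (hRD _ hr)
      rw [List.forall₂_map_left_iff, List.forall₂_map_right_iff, List.forall₂_same]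
      exact h1
  · change e s ∈ σ G.S
    have h1 : G.S = ν s := hs.symm
    rw [h1, hσN _ (hNT s)]
    exact ⟨s, rfl, rfl⟩
  · symm
    refine lang_eq G' e R s rfl ?_ ?_ ?_
    · intro q
      exact Finset.mem_sdiff.2 ⟨Finset.mem_union_left _
        (Finset.mem_image_of_mem _ (Finset.mem_univ _)), heD q⟩
    · intro q β hr
      exact ⟨(hP' _).2 ⟨q, β, hr, rfl⟩, fun x hx => hRD _ hr x hx⟩
    · intro q γ hγ
      obtain ⟨q', β, hr, heq⟩ := (hP' _).1 hγ
      rw [Prod.mk.injEq] at heq
      have := he heq.1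
      subst this
      exact ⟨β, hr, heq.2.symm⟩

/-- derivations are mapped to derivations of the form -/
theorem gen_map {G : Grammar} {τ : ℕ → ℕ} {L : Set (List ℕ)} (hL : Gen G.dat τ L) :
    ∀ w ∈ L, w.map τ ∈ G.language := by
  obtain ⟨Q, hQ, ν, s, R, D, hs, hN, hD, hR, hRD, rfl⟩ := hL
  intro w hw
  have hd' := (rtg_iff_Der _ _).2 hw
  obtain ⟨n, hn⟩ := hw
  refine ⟨?_, ?_⟩
  · intro x hx
    obtain ⟨y, hy, rfl⟩ := List.mem_map.1 hx
    exact hD y (DerN_letters hRD hn (by simp) y hy)
  · have h3 : ∀ u v, Step (ExR R) u v →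
        G.Step (u.map (Sum.elim ν τ)) (v.map (Sum.elim ν τ)) := by
      rintro _ _ ⟨pre, suf, q, x, rfl, hx, rfl⟩
      exact ⟨pre.map (Sum.elim ν τ), suf.map (Sum.elim ν τ), ν q, x.map (Sum.elim ν τ),
        hR _ hx, by simp, by simp⟩
    have h4 := Relation.ReflTransGen.lift (r := Step (ExR R)) (p := G.Step)
      (fun u => u.map (Sum.elim ν τ)) h3 _ _ hd'
    have h5 : (w.map (Sum.inr : ℕ → Q ⊕ ℕ)).map (Sum.elim ν τ) = w.map τ := by
      rw [List.map_map]
      rfl
    simp only [Function.onFun] at h4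
    rw [h5] at h4
    have h6 : G.S = ν s := hs.symm
    rw [h6]
    simpa using h4

/-- the full inverse image of the language of a form -/
theorem gen_inv (G : Grammar) (τ : ℕ → ℕ) (D : Finset ℕ) (hD : ∀ x ∈ D, τ x ∈ G.T) :
    Gen G.dat τ {w | w.map τ ∈ G.language ∧ ∀ x ∈ w, x ∈ D} := by
  classical
  let Q : Type := {x // x ∈ G.V \ G.T}
  let ν : Q → ℕ := Subtype.val
  let R : Set (Q × List (Q ⊕ ℕ)) :=
    {r | (ν r.1, r.2.map (Sum.elim ν τ)) ∈ G.P ∧ ∀ x, Sum.inr x ∈ r.2 → x ∈ D}
  refine ⟨Q, inferInstance, ν, ⟨G.S, G.S_mem⟩, R, D, rfl, fun q => q.2, hD, fun r hr => hr.1,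
    fun r hr => hr.2, ?_⟩
  ext w
  constructor
  · rintro ⟨⟨-, hd⟩, hw⟩
    have key : ∀ u, Relation.ReflTransGen G.Step u (w.map τ) → ∀ U : List (Q ⊕ ℕ),
        u = U.map (Sum.elim ν id) → (∀ x, Sum.inr x ∈ U → x ∈ G.T) →
        ∃ U' : List (Q ⊕ ℕ), U.map (Sum.map id id) = U'.map (Sum.map id τ) ∧
          (∀ x, Sum.inr x ∈ U' → x ∈ D) ∧ Der (ExR R) U' w := by
      intro u hu
      induction hu using Relation.ReflTransGen.head_induction_on with
      | refl =>
        intro U hU hT
        refine ⟨w.map Sum.inr, ?_, ?_, Der.of_ters w⟩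
        · have h1 := all_ters (T' := G.T) ν (fun q => G.not_mem q.2) U (by
            intro x hx
            rw [← hU] at hx
            obtain ⟨y, hy, rfl⟩ := List.mem_map.1 hx
            exact hD y (hw y hy))
          rw [← hU] at h1
          rw [h1, List.map_map, List.map_map, List.map_map]
          rfl
        · intro x hx
          obtain ⟨y, hy, hxy⟩ := List.mem_map.1 hx
          have : y = x := by simpa using hxy
          subst this
          exact hw y hy
      | head hstep _ ih =>
        intro U hU hT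
        obtain ⟨l, r, A, β, hA, rfl, rfl⟩ := hstep
        obtain ⟨U1, U2, rfl, h3, h4⟩ := List.map_eq_append_iff.1 hU.symm
        obtain ⟨x, U3, rfl, h5, h6⟩ := List.map_eq_cons_iff.1 h4
        cases x with
        | inr x =>
          exfalso
          have h7 : x = A := h5
          subst h7
          exact G.not_mem (G.P_wf _ hA).1 (hT x (by simp))
        | inl q =>
          have h7 : ν q = A := h5
          subst h7
          let lf : ℕ → Q ⊕ ℕ := fun x => if h : x ∈ G.V \ G.T then Sum.inl ⟨x, h⟩ else Sum.inr x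
          have h8 : (β.map lf).map (Sum.elim ν id) = β := by
            rw [List.map_map]
            conv_rhs => rw [← List.map_id β]
            apply List.map_congr_left
            intro x _
            simp only [Function.comp_apply, lf]
            split_ifs <;> rfl
          have h9 : ∀ x, Sum.inr x ∈ β.map lf → x ∈ G.T := by
            intro x hx
            obtain ⟨y, hy, hxy⟩ := List.mem_map.1 hx
            simp only [lf] at hxy
            split_ifs at hxy with h
            have hyx : y = x := by simpa using hxy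
            subst hyx
            have h10 := (G.P_wf _ hA).2 y hy
            by_contra hyT
            exact h (Finset.mem_sdiff.2 ⟨h10, hyT⟩)
          obtain ⟨U', hU', hUD, hder⟩ := ih (U1 ++ β.map lf ++ U3)
            (by simp only [List.map_append]; rw [h3, h6, h8]) (by
            intro x hx
            rw [List.mem_append, List.mem_append] at hx
            rcases hx with (hx | hx) | hx
            · exact hT x (List.mem_append_left _ hx)
            · exact h9 x hx
            · exact hT x (List.mem_append_right _ (List.mem_cons_of_mem _ hx)))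
          simp only [List.map_append] at hU'
          obtain ⟨V12, V3, rfl, hV12, hV3⟩ := List.map_eq_append_iff.1 hU'.symm
          obtain ⟨V1, V2, rfl, hV1, hV2⟩ := List.map_eq_append_iff.1 hV12
          refine ⟨V1 ++ Sum.inl q :: V3, ?_, ?_, ?_⟩
          · simp only [List.map_append, List.map_cons, Sum.map_inl, id_eq]
            rw [← hV1, ← hV3]
          · intro x hx
            rw [List.mem_append, List.mem_cons] at hx
            rcases hx with hx | hx | hx
            · exact hUD x (by simp [hx])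
            · simp at hx
            · exact hUD x (by simp [hx])
          · refine Der.of_step ⟨V1, V3, q, V2, rfl, ?_, rfl⟩ hder
            refine ⟨?_, fun x hx => hUD x (by simp [hx])⟩
            dsimp only
            have h11 : V2.map (Sum.elim ν τ) = β := by
              have h12 : (V2.map (Sum.map id τ)).map (Sum.elim ν id) = V2.map (Sum.elim ν τ) := by
                rw [List.map_map]
                apply List.map_congr_left
                rintro (x | x) _ <;> rfl
              rw [← h12, hV2]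
              have h13 : (β.map lf).map (Sum.map id id) = β.map lf := by
                simp
              rw [h13, h8]
            rw [h11]
            exact hA
    obtain ⟨U', hU', hUD, hder⟩ := key _ hd [Sum.inl ⟨G.S, G.S_mem⟩] rfl (by simp)
    have h14 : U' = [Sum.inl ⟨G.S, G.S_mem⟩] := by
      cases U' with
      | nil => simp at hU'
      | cons x U' =>
        cases U' with
        | cons y U' => simp at hU'
        | nil =>
          cases x with
          | inr x => simp at hU'
          | inl x =>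
            simp only [List.map_cons, List.map_nil, Sum.map_inl, id_eq, List.cons.injEq,
              Sum.inl.injEq, and_true] at hU'
            rw [← hU']
    rw [← h14]
    exact hder
  · intro hw
    have h1 : Gen G.dat τ {w | Der (ExR R) [Sum.inl ⟨G.S, G.S_mem⟩] w} :=
      ⟨Q, inferInstance, ν, ⟨G.S, G.S_mem⟩, R, D, rfl, fun q => q.2, hD, fun r hr => hr.1,
        fun r hr => hr.2, rfl⟩
    refine ⟨gen_map h1 w hw, ?_⟩
    obtain ⟨n, hn⟩ := hw
    exact DerN_letters (fun r (hr : r ∈ R) => hr.2) hn (by simp)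

/-- a single word -/
theorem gen_single {G : Grammar} {τ : ℕ → ℕ} {w : List ℕ} (hw : w.map τ ∈ G.language) :
    Gen G.dat τ {w} := by
  classical
  have hD : ∀ x ∈ w.toFinset, τ x ∈ G.T := by
    intro x hx
    exact hw.1 _ (List.mem_map_of_mem (List.mem_toFinset.1 hx))
  have h1 := gen_inv G τ w.toFinset hD
  let δ : {p // p ∈ w.tails} → ℕ → ℕ → {p // p ∈ w.tails} → Prop := fun z x x' z' =>
    z.1 = x :: z'.1 ∧ x' = x
  have h2 := Gen.trans h1 δ w.toFinset ⟨w, by simp⟩ {z | z.1 = []} hD (by
    rintro z x x' z' ⟨h3, rfl⟩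
    refine ⟨?_, rfl⟩
    rw [List.mem_toFinset]
    have h4 := z.2
    rw [List.mem_tails] at h4
    exact h4.subset (by rw [h3]; exact List.mem_cons_self))
  have hrun : ∀ (z z' : {p // p ∈ w.tails}) (u v : List ℕ), Run δ z u v z' →
      v = u ∧ z.1 = u ++ z'.1 := by
    intro z z' u v h
    induction h with
    | nil z => exact ⟨rfl, rfl⟩
    | cons hd _ ih =>
      obtain ⟨h3, rfl⟩ := hd
      obtain ⟨rfl, h5⟩ := ih
      exact ⟨rfl, by rw [h3, h5]; rfl⟩
  have hrun' : ∀ (u : List ℕ) (hu : u ∈ w.tails),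
      Run δ ⟨u, hu⟩ u u ⟨[], by simp⟩ := by
    intro u
    induction u with
    | nil => intro hu; exact Run.nil _
    | cons x u ih =>
      intro hu
      have hu' : u ∈ w.tails := by
        rw [List.mem_tails] at hu ⊢
        exact (List.suffix_cons x u).trans hu
      exact Run.cons (z' := ⟨u, hu'⟩) ⟨rfl, rfl⟩ (ih hu')
  convert h2 using 1
  ext v
  simp only [Set.mem_singleton_iff, Set.mem_ofPred_eq]
  constructor
  · rintro rfl
    exact ⟨v, ⟨hw, fun x hx => List.mem_toFinset.2 hx⟩, ⟨[], by simp⟩, rfl, hrun' v (by simp)⟩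
  · rintro ⟨u, -, z, hz, hr⟩
    obtain ⟨rfl, h3⟩ := hrun _ _ _ _ hr
    rw [hz] at h3
    simpa using h3.symm

/-- a finite set of words -/
theorem fam_of_finite {G : Grammar} {τ : ℕ → ℕ} {L : Set (List ℕ)} (hL : L.Finite)
    (h : ∀ w ∈ L, w.map τ ∈ G.language) : L ∈ family G := by
  have : Finite L := hL
  have h1 := Gen.iUnion (G := G.dat) (τ := τ) L (fun w => {w.1}) (fun w => gen_single (h w.1 w.2))
  apply gen_fam (τ := τ)
  convert h1 using 1
  ext w
  simp

theorem self_mem (G : Grammar) : G.language ∈ family G := by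
  refine ⟨G, fun x => {x}, ⟨?_, ?_, ?_, ?_, ?_⟩, rfl⟩
  · intro a _ b _ hab
    simpa using hab
  · intro A hA
    simpa using Finset.mem_sdiff.1 hA
  · intro a ha
    simpa using ha
  · intro p hp
    refine ⟨p, hp, by simp, ?_⟩
    rw [List.forall₂_same]
    intro x _
    simp
  · simp

/-- the digraph of the words of length two -/
def arcs (G : Grammar) : Set (ℕ × ℕ) := {p | [p.1, p.2] ∈ G.language}

/-- all nonempty words have length two -/
def Two (G : Grammar) : Prop := ∀ w ∈ G.language, w ≠ [] → w.length = 2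

theorem arcs_finite (G : Grammar) : (arcs G).Finite := by
  refine (((Finset.finite_toSet G.T).prod (Finset.finite_toSet G.T))).subset ?_
  rintro ⟨a, b⟩ h
  exact ⟨h.1 a (by simp), h.1 b (by simp)⟩

theorem map_of_fam {G : Grammar} {L : Set (List ℕ)} (h : L ∈ family G) :
    ∃ τ : ℕ → ℕ, ∀ w ∈ L, w.map τ ∈ G.language := by
  obtain ⟨τ, hτ⟩ := fam_gen h
  exact ⟨τ, gen_map hτ⟩

theorem two_of_le {G H : Grammar} (h : FamLE (family G) (family H)) (hH : Two H) : Two G := by
  obtain ⟨L, hL, he⟩ := h _ (self_mem G)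
  obtain ⟨τ, hτ⟩ := map_of_fam hL
  intro w hw hne
  have h1 : w ∈ L \ {[]} := by rw [← he]; exact ⟨hw, hne⟩
  have h2 := hH _ (hτ w h1.1) (by simpa using hne)
  simpa using h2

theorem hom_of_le {G H : Grammar} (h : FamLE (family G) (family H)) : Hom (arcs G) (arcs H) := by
  obtain ⟨L, hL, he⟩ := h _ (self_mem G)
  obtain ⟨τ, hτ⟩ := map_of_fam hL
  refine ⟨τ, fun a b hab => ?_⟩
  have h1 : [a, b] ∈ L \ {[]} := by rw [← he]; exact ⟨hab, by simp⟩
  exact hτ _ h1.1

theorem alph_finite {G : Grammar} {L : Set (List ℕ)} (h : L ∈ family G) :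
    ∃ D : Finset ℕ, ∀ w ∈ L, ∀ x ∈ w, x ∈ D := by
  obtain ⟨G', μ, -, rfl⟩ := h
  exact ⟨G'.T, fun w hw => hw.1⟩

theorem le_of_hom {G H : Grammar} (hG : Two G) (h : Hom (arcs G) (arcs H)) :
    FamLE (family G) (family H) := by
  intro L hL
  obtain ⟨τ, hτ⟩ := map_of_fam hL
  obtain ⟨D, hD⟩ := alph_finite hL
  obtain ⟨g, hg⟩ := h
  have hlen : ∀ w ∈ L \ {[]}, w.length = 2 := by
    intro w hw
    have := hG _ (hτ w hw.1) (by simpa using hw.2)
    simpa using this
  refine ⟨L \ {[]}, ?_, by simp⟩
  refine fam_of_finite (τ := g ∘ τ) ?_ ?_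
  · refine (finite_words (D : Set ℕ) D.finite_toSet 3).subset ?_
    intro w hw
    exact ⟨fun x hx => hD w hw.1 x hx, by rw [hlen w hw]; norm_num⟩
  · intro w hw
    have h1 := hlen w hw
    match w, h1 with
    | [a, b], _ => exact hg _ _ (hτ _ hw.1)

theorem le_iff {G H : Grammar} (hG : Two G) :
    FamLE (family G) (family H) ↔ Hom (arcs G) (arcs H) :=
  ⟨hom_of_le, le_of_hom hG⟩

/-- the language of a grammar all of whose productions lead from the start symbol to words of
terminals -/
theorem lang_terminal (G : Grammar) (h : ∀ p ∈ G.P, p.1 = G.S ∧ ∀ x ∈ p.2, x ∈ G.T) :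
    G.language = {w | (G.S, w) ∈ G.P} := by
  ext w
  constructor
  · rintro ⟨hw, hd⟩
    have key : ∀ u, Relation.ReflTransGen G.Step u w → (∀ x ∈ u, x ∈ G.T) → u = w := by
      intro u hu
      induction hu using Relation.ReflTransGen.head_induction_on with
      | refl => intro _; rfl
      | head hstep _ _ =>
        intro hu
        obtain ⟨l, r, A, β, hA, rfl, rfl⟩ := hstep
        exact absurd (hu A (by simp)) (G.not_mem (G.P_wf _ hA).1)
    rcases Relation.ReflTransGen.cases_head hd with h1 | ⟨v, ⟨l, r, A, β, hA, h1, h2⟩, h3⟩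
    · exact absurd (hw G.S (by rw [← h1]; simp)) (G.not_mem G.S_mem)
    · have h4 : l = [] ∧ A = G.S ∧ r = [] := by
        cases l with
        | nil =>
          simp only [List.nil_append, List.cons.injEq] at h1
          exact ⟨rfl, h1.1.symm, h1.2.symm⟩
        | cons x l => simp at h1
      obtain ⟨rfl, rfl, rfl⟩ := h4
      simp only [List.nil_append, List.append_nil] at h2
      subst h2
      have h5 := key _ h3 (h _ hA).2
      rw [← h5]
      exact hA
  · intro hw
    refine ⟨(h _ hw).2, Relation.ReflTransGen.single ⟨[], [], G.S, w, hw, rfl, by simp⟩⟩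

/-- a grammar with a given set of words of length two -/
theorem exists_grammar (E : Set (ℕ × ℕ)) (hE : E.Finite) :
    ∃ G : Grammar, Two G ∧ Hom E (arcs G) ∧ Hom (arcs G) E := by
  classical
  let T : Finset ℕ := (hE.toFinset.image (fun p => p.1 + 1)) ∪ (hE.toFinset.image (fun p => p.2 + 1))
  have hT1 : ∀ a b, (a, b) ∈ E → a + 1 ∈ T := by
    intro a b h
    exact Finset.mem_union_left _ (Finset.mem_image.2 ⟨(a, b), by simpa using h, rfl⟩)
  have hT2 : ∀ a b, (a, b) ∈ E → b + 1 ∈ T := by
    intro a b h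
    exact Finset.mem_union_right _ (Finset.mem_image.2 ⟨(a, b), by simpa using h, rfl⟩)
  have h0 : 0 ∉ T := by
    simp [T]
  let P : Finset (ℕ × List ℕ) := hE.toFinset.image (fun p => (0, [p.1 + 1, p.2 + 1]))
  have hP : ∀ p, p ∈ P ↔ ∃ a b, (a, b) ∈ E ∧ p = (0, [a + 1, b + 1]) := by
    intro p
    simp only [P, Finset.mem_image, Set.Finite.mem_toFinset, Prod.exists, eq_comm]
  let G : Grammar :=
    { V := insert 0 T
      T := T
      P := P
      S := 0
      T_subset := Finset.subset_insert _ _
      S_mem := by simp [h0]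
      P_wf := by
        intro p hp
        obtain ⟨a, b, hab, rfl⟩ := (hP p).1 hp
        refine ⟨by simp [h0], ?_⟩
        intro x hx
        simp only [List.mem_cons, List.not_mem_nil, or_false] at hx
        rcases hx with rfl | rfl
        · exact Finset.mem_insert_of_mem (hT1 a b hab)
        · exact Finset.mem_insert_of_mem (hT2 a b hab) }
  have hlang : G.language = {w | (0, w) ∈ P} := by
    refine lang_terminal G ?_
    intro p hp
    obtain ⟨a, b, hab, rfl⟩ := (hP p).1 hp
    refine ⟨rfl, ?_⟩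
    intro x hx
    simp only [List.mem_cons, List.not_mem_nil, or_false] at hx
    rcases hx with rfl | rfl
    · exact hT1 a b hab
    · exact hT2 a b hab
  refine ⟨G, ?_, ⟨fun a => a + 1, ?_⟩, ⟨fun a => a - 1, ?_⟩⟩
  · intro w hw _
    rw [hlang] at hw
    obtain ⟨a, b, hab, h⟩ := (hP _).1 hw
    simp only [Prod.mk.injEq, true_and] at h
    rw [h]
    rfl
  · intro a b hab
    change [a + 1, b + 1] ∈ G.language
    rw [hlang]
    exact (hP _).2 ⟨a, b, hab, rfl⟩
  · intro a b hab
    change [a, b] ∈ G.language at hab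
    rw [hlang] at hab
    obtain ⟨a', b', hab', h⟩ := (hP _).1 hab
    simp only [Prod.mk.injEq, List.cons.injEq, true_and, and_true] at h
    obtain ⟨rfl, rfl⟩ := h
    simpa using hab'

theorem lang_one : formOne.language = {[1, 2], [2, 1]} := by
  rw [lang_terminal formOne (by decide)]
  ext w
  simp [formOne]

theorem lang_two : formTwo.language = {[1, 1]} := by
  rw [lang_terminal formTwo (by decide)]
  ext w
  simp [formTwo]

theorem two_formOne : Two formOne := by
  intro w hw _
  rw [lang_one] at hw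
  rcases hw with rfl | rfl <;> rfl

theorem two_formTwo : Two formTwo := by
  intro w hw _
  rw [lang_two] at hw
  rw [hw]
  rfl

/-- The finite grammar forms `S → ab | ba` and `S → aa` have families
`L(formOne) ⊊ L(formTwo)`, and the pair of these families is dense. -/
theorem result : formOne.language.Finite ∧ formTwo.language.Finite ∧
    FamLT (family formOne) (family formTwo) ∧
    IsDensePair (family formOne) (family formTwo) := by
  refine ⟨by rw [lang_one]; simp, by rw [lang_two]; simp, ⟨?_, ?_⟩, ?_⟩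
  · rw [le_iff two_formOne]
    refine ⟨fun _ => 1, fun a b _ => ?_⟩
    change [1, 1] ∈ formTwo.language
    rw [lang_two]
    rfl
  · rw [le_iff two_formTwo]
    rintro ⟨h, hh⟩
    have h1 : [h 1, h 1] ∈ formOne.language := hh 1 1 (by
      change [1, 1] ∈ formTwo.language
      rw [lang_two]
      rfl)
    rw [lang_one] at h1
    rcases h1 with h1 | h1
    · simp only [List.cons.injEq, and_true] at h1
      omega
    · simp only [Set.mem_singleton_iff, List.cons.injEq, and_true] at h1
      omega
  · rintro G₁ G₂ h01 ⟨h12, h21⟩ h23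
    have hG₂ : Two G₂ := two_of_le h23 two_formTwo
    have hG₁ : Two G₁ := two_of_le h12 hG₂
    rw [le_iff hG₁] at h12
    rw [le_iff hG₂] at h21
    obtain ⟨h, hh⟩ := hom_of_le h01
    have hpq : (h 1, h 2) ∈ arcs G₁ := hh 1 2 (by
      change [1, 2] ∈ formOne.language
      rw [lang_one]
      simp)
    have hqp : (h 2, h 1) ∈ arcs G₁ := hh 2 1 (by
      change [2, 1] ∈ formOne.language
      rw [lang_one]
      simp)
    obtain ⟨E, hE, h3, h4, h5, h6⟩ := dense (arcs_finite G₁) (arcs_finite G₂) h12 h21 hpq hqp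
    obtain ⟨G₃, hG₃, h7, h8⟩ := exists_grammar E hE
    refine ⟨G₃, ⟨?_, ?_⟩, ⟨?_, ?_⟩⟩
    · rw [le_iff hG₁]
      exact h3.trans h7
    · rw [le_iff hG₃]
      intro h9
      exact h5 (h7.trans h9)
    · rw [le_iff hG₃]
      exact h8.trans h4
    · rw [le_iff hG₂]
      intro h9
      exact h6 (h9.trans h8)

end Pool.Agent.Results.MP_71ec98_lc.FinitePairDense
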